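import Mathlib
import Pool.Agent.Helper40.B4.Final

open Finset
open scoped BigOperators

namespace B4da01

/-- Sign of a Boolean. -/
def sg (b : Bool) : ℝ := if b then 1 else -1

lemma sg_mul_self (b : Bool) : sg b * sg b = 1 := by cases b <;> simp [sg]
lemma sg_not (b : Bool) : sg (!b) = - sg b := by cases b <;> simp [sg]
lemma sg_xor (a b : Bool) : sg (!(xor a b)) = sg a * sg b := by
  cases a <;> cases b <;> simp [sg]
lemma abs_sg (b : Bool) : |sg b| = 1 := by cases b <;> simp [sg]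

/-- The cotype-like inequality with constant `R` for families indexed by the finite type `ι`. -/
def COT (ι : Type) [Fintype ι] [DecidableEq ι] (R : ℝ) (X : Type*) [NormedAddCommGroup X] [NormedSpace ℝ X] :
    Prop :=
  ∀ x : ι → X, R * (𝔼 c, ‖x c‖) ≤ 𝔼 θ : ι → Bool, ‖∑ c, sg (θ c) • x c‖

variable {X : Type*} [NormedAddCommGroup X] [NormedSpace ℝ X]

lemma COT.congr {ι κ : Type} [Fintype ι] [DecidableEq ι] [Fintype κ] [DecidableEq κ] (e : ι ≃ κ) {R : ℝ} (h : COT ι R X) :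
    COT κ R X := by
  intro x
  have h1 := h (fun c => x (e c))
  have h2 : 𝔼 c, ‖x (e c)‖ = 𝔼 c, ‖x c‖ := Fintype.expect_equiv e _ _ (fun _ => rfl)
  have h3 : 𝔼 θ : ι → Bool, ‖∑ c, sg (θ c) • x (e c)‖
      = 𝔼 θ : κ → Bool, ‖∑ c, sg (θ c) • x c‖ := by
    refine Fintype.expect_equiv (e.arrowCongr (Equiv.refl Bool)) _ _ (fun θ => ?_)
    congr 1
    refine Fintype.sum_equiv e _ _ (fun c => ?_)
    simp [Equiv.arrowCongr]
  rw [h2, h3] at h1
  exact h1

lemma expect_nonneg' {α : Type*} [Fintype α] {f : α → ℝ} (h : ∀ a, 0 ≤ f a) : 0 ≤ 𝔼 a, f a :=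
  Finset.expect_nonneg (fun a _ => h a)

lemma COT.prod {ι κ : Type} [Fintype ι] [DecidableEq ι] [Fintype κ] [DecidableEq κ] {R R' : ℝ} (hR : 0 ≤ R)
    (h : COT ι R X) (h' : COT κ R' X) : COT (ι × κ) (R * R') X := by
  intro x
  have key : ∀ α : ι → Bool,
      𝔼 θ : ι × κ → Bool, ‖∑ c, sg (θ c) • x c‖
        = 𝔼 β : ι × κ → Bool, ‖∑ c, sg (α c) • ∑ d, sg (β (c, d)) • x (c, d)‖ := by
    intro α
    let e : (ι × κ → Bool) ≃ (ι × κ → Bool) :=
      { toFun := fun θ p => !(xor (α p.1) (θ p))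
        invFun := fun θ p => !(xor (α p.1) (θ p))
        left_inv := by
          intro θ; funext p; cases h1 : α p.1 <;> cases h2 : θ p <;> simp [h1, h2]
        right_inv := by
          intro θ; funext p; cases h1 : α p.1 <;> cases h2 : θ p <;> simp [h1, h2] }
    refine Fintype.expect_equiv e _ _ (fun θ => ?_)
    congr 1
    rw [Fintype.sum_prod_type]
    refine Finset.sum_congr rfl (fun c _ => ?_)
    rw [Finset.smul_sum]
    refine Finset.sum_congr rfl (fun d _ => ?_)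
    have : sg (e θ (c, d)) = sg (α c) * sg (θ (c, d)) := by
      simp only [e, Equiv.coe_fn_mk]
      exact sg_xor _ _
    rw [this, smul_smul, ← mul_assoc, sg_mul_self, one_mul]
  have h1 : 𝔼 θ : ι × κ → Bool, ‖∑ c, sg (θ c) • x c‖
      = 𝔼 β : ι × κ → Bool, 𝔼 α : ι → Bool,
          ‖∑ c, sg (α c) • ∑ d, sg (β (c, d)) • x (c, d)‖ := by
    rw [Finset.expect_comm]
    rw [Finset.expect_congr rfl (fun α _ => (key α).symm)]
    rw [Fintype.expect_const]
  have h2 : ∀ c : ι, 𝔼 β : ι × κ → Bool, ‖∑ d, sg (β (c, d)) • x (c, d)‖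
      = 𝔼 γ : κ → Bool, ‖∑ d, sg (γ d) • x (c, d)‖ := by
    intro c
    have e1 : 𝔼 β : ι × κ → Bool, ‖∑ d, sg (β (c, d)) • x (c, d)‖
        = 𝔼 β : ι → κ → Bool, ‖∑ d, sg (β c d) • x (c, d)‖ :=
      Fintype.expect_equiv (Equiv.curry ι κ Bool) _ _ (fun β => rfl)
    rw [e1]
    -- split the coordinate c
    have e2 : 𝔼 β : ι → κ → Bool, ‖∑ d, sg (β c d) • x (c, d)‖
        = 𝔼 p : (κ → Bool) × ({i // i ≠ c} → κ → Bool), ‖∑ d, sg (p.1 d) • x (c, d)‖ :=
      Fintype.expect_equiv (Equiv.funSplitAt c (κ → Bool)) _ _ (fun β => rfl)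
    rw [e2]
    have e3 := Finset.expect_product (univ : Finset (κ → Bool))
      (univ : Finset ({i // i ≠ c} → κ → Bool))
      (fun p => ‖∑ d, sg (p.1 d) • x (c, d)‖)
    rw [Finset.univ_product_univ] at e3
    rw [e3]
    refine Finset.expect_congr rfl (fun γ _ => ?_)
    exact Fintype.expect_const (ι := {i // i ≠ c} → κ → Bool) (‖∑ d, sg (γ d) • x (c, d)‖)
  rw [h1]
  calc R * R' * 𝔼 c : ι × κ, ‖x c‖
      = R * 𝔼 c : ι, R' * 𝔼 d : κ, ‖x (c, d)‖ := by
        have e3 := Finset.expect_product (univ : Finset ι) (univ : Finset κ) (fun p => ‖x p‖)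
        rw [Finset.univ_product_univ] at e3
        rw [e3, mul_assoc, Finset.mul_expect]
    _ ≤ R * 𝔼 c : ι, 𝔼 γ : κ → Bool, ‖∑ d, sg (γ d) • x (c, d)‖ := by
        refine mul_le_mul_of_nonneg_left ?_ hR
        exact Finset.expect_le_expect (fun c _ => h' (fun d => x (c, d)))
    _ = R * 𝔼 c : ι, 𝔼 β : ι × κ → Bool, ‖∑ d, sg (β (c, d)) • x (c, d)‖ := by
        congr 1
        exact Finset.expect_congr rfl (fun c _ => (h2 c).symm)
    _ = 𝔼 β : ι × κ → Bool, R * 𝔼 c : ι, ‖∑ d, sg (β (c, d)) • x (c, d)‖ := by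
        rw [Finset.expect_comm, Finset.mul_expect]
    _ ≤ _ := Finset.expect_le_expect (fun β _ => h (fun c => ∑ d, sg (β (c, d)) • x (c, d)))

lemma cot_of_unique {ι : Type} [Fintype ι] [DecidableEq ι] [Unique ι] : COT ι 1 X := by
  intro x
  have : 𝔼 θ : ι → Bool, ‖∑ c, sg (θ c) • x c‖ = 𝔼 θ : ι → Bool, ‖x default‖ := by
    refine Finset.expect_congr rfl (fun θ _ => ?_)
    rw [Fintype.sum_unique, norm_smul, Real.norm_eq_abs, abs_sg, one_mul]
  rw [this, Fintype.expect_const, one_mul]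
  have : 𝔼 c : ι, ‖x c‖ = 𝔼 c : ι, ‖x default‖ :=
    Finset.expect_congr rfl (fun c _ => by rw [Subsingleton.elim c default])
  rw [this, Fintype.expect_const]

/-- Powers: the type `Fin j → ι` has cardinality `card ι ^ j`. -/
lemma COT.pow {ι : Type} [Fintype ι] [DecidableEq ι] {R : ℝ} (hR : 0 ≤ R) (h : COT ι R X) :
    ∀ j : ℕ, COT (Fin j → ι) (R ^ j) X
  | 0 => by rw [pow_zero]; exact cot_of_unique
  | j + 1 => by
      have h1 := COT.prod hR h (COT.pow hR h j)
      have h2 := COT.congr (Fin.consEquiv (fun _ : Fin (j + 1) => ι)) h1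
      rw [pow_succ']
      exact h2

/-! ### Almost extremal families span almost isometric copies of `ℓ_∞^K`. -/

/-- flip the signs in the finite set `s` -/
def flipOn {ι : Type} [DecidableEq ι] (s : Finset ι) (θ : ι → Bool) : ι → Bool :=
  fun c => if c ∈ s then !(θ c) else θ c

lemma flipOn_insert {ι : Type} [DecidableEq ι] {s : Finset ι} {c : ι} (hc : c ∉ s)
    (θ : ι → Bool) : flipOn (insert c s) θ = flipOn {c} (flipOn s θ) := by
  funext d
  unfold flipOn
  by_cases hd : d = c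
  · subst hd; simp [hc]
  · simp [hd]

section almost

variable {ι : Type} [Fintype ι] [DecidableEq ι]

/-- signed norm -/
noncomputable def RR (x : ι → X) (θ : ι → Bool) : ℝ := ‖∑ c, sg (θ c) • x c‖

lemma RR_nonneg (x : ι → X) (θ : ι → Bool) : 0 ≤ RR x θ := norm_nonneg _

lemma two_norm_le (x : ι → X) (θ : ι → Bool) (c : ι) :
    2 * ‖x c‖ ≤ RR x θ + RR x (flipOn {c} θ) := by
  have h : (∑ d, sg (θ d) • x d) - (∑ d, sg (flipOn {c} θ d) • x d) = (2 * sg (θ c)) • x c := by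
    rw [← Finset.sum_sub_distrib]
    rw [Finset.sum_eq_single c]
    · have : flipOn {c} θ c = !(θ c) := by simp [flipOn]
      rw [this, sg_not, ← sub_smul]
      congr 1; ring
    · intro d _ hd
      have : flipOn {c} θ d = θ d := by simp [flipOn, hd]
      rw [this, sub_self]
    · intro h; exact absurd (Finset.mem_univ c) h
  have h2 : ‖(2 * sg (θ c)) • x c‖ = 2 * ‖x c‖ := by
    rw [norm_smul, Real.norm_eq_abs, abs_mul, abs_sg]; norm_num
  rw [← h2, ← h]
  exact norm_sub_le _ _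

lemma RR_flip_univ (x : ι → X) (θ : ι → Bool) : RR x (flipOn univ θ) = RR x θ := by
  unfold RR
  have : ∑ c, sg (flipOn univ θ c) • x c = - ∑ c, sg (θ c) • x c := by
    rw [← Finset.sum_neg_distrib]
    refine Finset.sum_congr rfl (fun c _ => ?_)
    simp [flipOn, sg_not]
  rw [this, norm_neg]

lemma expect_flip (x : ι → X) (c : ι) :
    𝔼 θ : ι → Bool, RR x (flipOn {c} θ) = 𝔼 θ : ι → Bool, RR x θ := by
  let e : (ι → Bool) ≃ (ι → Bool) :=
    { toFun := flipOn {c}
      invFun := flipOn {c}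
      left_inv := by
        intro θ; funext d; by_cases hd : d = c <;> simp [flipOn, hd]
      right_inv := by
        intro θ; funext d; by_cases hd : d = c <;> simp [flipOn, hd] }
  exact Fintype.expect_equiv e _ _ (fun θ => rfl)

/-- main quantitative step -/
lemma RR_near_one (x : ι → X) (hodd : Odd (Fintype.card ι)) {δ : ℝ} (hδ : 0 ≤ δ)
    (h1 : 𝔼 c, ‖x c‖ = 1) (h2 : 𝔼 θ : ι → Bool, RR x θ ≤ 1 + δ) :
    (∀ c, 1 - Fintype.card ι * δ ≤ ‖x c‖) ∧
    ∀ θ, RR x θ ≤ 1 + Fintype.card ι * (2 ^ (Fintype.card ι) * ((2 * Fintype.card ι + 2) * δ)) := by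
  classical
  set K := Fintype.card ι with hK
  have hKpos : 0 < K := hodd.pos
  haveI : Nonempty ι := Fintype.card_pos_iff.mp hKpos
  have hup : ∀ c, ‖x c‖ ≤ 1 + δ := by
    intro c
    have h3 : 𝔼 θ : ι → Bool, (2 * ‖x c‖) ≤ 𝔼 θ : ι → Bool, (RR x θ + RR x (flipOn {c} θ)) :=
      Finset.expect_le_expect (fun θ _ => two_norm_le x θ c)
    rw [Fintype.expect_const, Finset.expect_add_distrib, expect_flip] at h3
    linarith
  have hsum : ∑ c, ‖x c‖ = K := by
    rw [Fintype.expect_eq_sum_div_card, ← hK] at h1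
    have : (K : ℝ) ≠ 0 := by positivity
    field_simp at h1
    linarith
  have hlow : ∀ c, 1 - K * δ ≤ ‖x c‖ := by
    intro c
    have h4 : ∑ d, ‖x d‖ = ‖x c‖ + ∑ d ∈ univ.erase c, ‖x d‖ :=
      (Finset.add_sum_erase univ (fun d => ‖x d‖) (Finset.mem_univ c)).symm
    have h5 : ∑ d ∈ univ.erase c, ‖x d‖ ≤ ∑ d ∈ univ.erase c, (1 + δ) :=
      Finset.sum_le_sum (fun d _ => hup d)
    rw [Finset.sum_const, Finset.card_erase_of_mem (Finset.mem_univ c), Finset.card_univ,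
      ← hK, nsmul_eq_mul] at h5
    have h6 : ((K - 1 : ℕ) : ℝ) = K - 1 := by
      rw [Nat.cast_sub hKpos]; simp
    rw [h6] at h5
    nlinarith
  refine ⟨hlow, ?_⟩
  set η : ℝ := 2 ^ K * ((2 * K + 2) * δ) with hη
  have hcardB : Fintype.card (ι → Bool) = 2 ^ K := by
    rw [Fintype.card_fun, Fintype.card_bool]
  have hpair : ∀ c θ, |RR x θ + RR x (flipOn {c} θ) - 2| ≤ η := by
    intro c θ
    have hq : ∀ θ', 0 ≤ RR x θ' + RR x (flipOn {c} θ') - (2 - 2 * K * δ) := by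
      intro θ'
      have := two_norm_le x θ' c
      have := hlow c
      linarith
    have h7 : 𝔼 θ' : ι → Bool, (RR x θ' + RR x (flipOn {c} θ') - (2 - 2 * K * δ))
        ≤ (2 * K + 2) * δ := by
      rw [Finset.expect_sub_distrib, Finset.expect_add_distrib, expect_flip, Fintype.expect_const]
      linarith
    have h8 : RR x θ + RR x (flipOn {c} θ) - (2 - 2 * K * δ)
        ≤ ∑ θ' : ι → Bool, (RR x θ' + RR x (flipOn {c} θ') - (2 - 2 * K * δ)) :=
      Finset.single_le_sum (f := fun θ' => RR x θ' + RR x (flipOn {c} θ') - (2 - 2 * K * δ))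
        (fun θ' _ => hq θ') (Finset.mem_univ θ)
    rw [Fintype.expect_eq_sum_div_card, hcardB, div_le_iff₀ (by positivity)] at h7
    have h9 : ((2 ^ K : ℕ) : ℝ) = 2 ^ K := by push_cast; rfl
    rw [h9] at h7
    have h10 : 0 ≤ 2 * K * δ := by positivity
    have h11 : 2 * K * δ ≤ η := by
      have : (1 : ℝ) ≤ 2 ^ K := one_le_pow₀ (by norm_num)
      have h12 : 0 ≤ (2 * (K : ℝ) + 2) * δ := by positivity
      nlinarith
    rw [abs_le]
    constructor
    · have := hq θ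
      linarith
    · linarith
  have hflip : ∀ s : Finset ι, ∀ θ,
      |RR x (flipOn s θ) - 1 - (-1) ^ s.card * (RR x θ - 1)| ≤ s.card * η := by
    intro s
    induction s using Finset.induction_on with
    | empty =>
      intro θ
      have : flipOn ∅ θ = θ := by funext d; simp [flipOn]
      rw [this]; simp
    | insert c s hc ih =>
      intro θ
      rw [flipOn_insert hc, Finset.card_insert_of_notMem hc]
      have h1 := hpair c (flipOn s θ)
      have h2 := ih θ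
      have : RR x (flipOn {c} (flipOn s θ)) - 1 - (-1) ^ (s.card + 1) * (RR x θ - 1)
          = (RR x (flipOn s θ) + RR x (flipOn {c} (flipOn s θ)) - 2)
            - (RR x (flipOn s θ) - 1 - (-1) ^ s.card * (RR x θ - 1)) := by
        rw [pow_succ]; ring
      rw [this]
      push_cast
      calc _ ≤ _ + _ := abs_sub _ _
        _ ≤ η + s.card * η := add_le_add h1 h2
        _ = _ := by ring
  intro θ
  have h3 := hflip univ θ
  rw [RR_flip_univ, Finset.card_univ, ← hK, hodd.neg_one_pow] at h3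
  have h4 : RR x θ - 1 - (-1) * (RR x θ - 1) = 2 * (RR x θ - 1) := by ring
  rw [h4, abs_le] at h3
  have hη0 : 0 ≤ (K : ℝ) * η := by positivity
  linarith [h3.2]

/-- upper `ℓ_∞` estimate from the extreme points of the cube -/
lemma norm_sum_le (x : ι → X) {B : ℝ} (hB : ∀ θ, RR x θ ≤ B) (a : ι → ℝ) {A : ℝ}
    (hA : ∀ c, |a c| ≤ A) (hA0 : 0 ≤ A) : ‖∑ c, a c • x c‖ ≤ A * B := by
  classical
  obtain ⟨f, hf1, hf2⟩ := exists_dual_vector'' ℝ (∑ c, a c • x c)
  have h1 : f (∑ c, a c • x c) = ‖∑ c, a c • x c‖ := by simpa using hf2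
  let θ : ι → Bool := fun c => decide (0 ≤ f (x c))
  have h2 : ∀ c, |f (x c)| = sg (θ c) * f (x c) := by
    intro c
    by_cases h : 0 ≤ f (x c)
    · simp [θ, sg, h, abs_of_nonneg h]
    · simp [θ, sg, h, abs_of_neg (not_le.mp h)]
  have h3 : f (∑ c, sg (θ c) • x c) = ∑ c, |f (x c)| := by
    rw [map_sum]
    refine Finset.sum_congr rfl (fun c _ => ?_)
    rw [map_smul, smul_eq_mul, h2]
  have h4 : f (∑ c, sg (θ c) • x c) ≤ RR x θ := by
    calc f (∑ c, sg (θ c) • x c) ≤ ‖f (∑ c, sg (θ c) • x c)‖ := Real.le_norm_self _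
      _ ≤ ‖f‖ * ‖∑ c, sg (θ c) • x c‖ := f.le_opNorm _
      _ ≤ 1 * ‖∑ c, sg (θ c) • x c‖ := by gcongr
      _ = RR x θ := by rw [one_mul]; rfl
  rw [← h1, map_sum]
  calc ∑ c, f (a c • x c) ≤ ∑ c, A * |f (x c)| := by
        refine Finset.sum_le_sum (fun c _ => ?_)
        rw [map_smul, smul_eq_mul]
        calc a c * f (x c) ≤ |a c * f (x c)| := le_abs_self _
          _ = |a c| * |f (x c)| := abs_mul _ _
          _ ≤ A * |f (x c)| := by gcongr; exact hA c
    _ = A * ∑ c, |f (x c)| := by rw [Finset.mul_sum]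
    _ ≤ A * B := by
        refine mul_le_mul_of_nonneg_left ?_ hA0
        rw [← h3]; exact h4.trans (hB θ)

lemma le_norm_sum (x : ι → X) {B L : ℝ} (hB : ∀ θ, RR x θ ≤ B) (hL : ∀ c, L ≤ ‖x c‖)
    (a : ι → ℝ) {A : ℝ} (hA : ∀ c, |a c| ≤ A) (c : ι) (hc : |a c| = A) :
    A * (2 * L - B) ≤ ‖∑ c, a c • x c‖ := by
  classical
  have hA0 : 0 ≤ A := hc ▸ abs_nonneg _
  let b : ι → ℝ := fun d => if d = c then - a d else a d
  have hb : ∀ d, |b d| ≤ A := by
    intro d; by_cases hd : d = c <;> simp [b, hd, hA]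
  have h1 := norm_sum_le x hB b hb hA0
  have h2 : (∑ d, a d • x d) - (∑ d, b d • x d) = (2 * a c) • x c := by
    rw [← Finset.sum_sub_distrib]
    rw [Finset.sum_eq_single c]
    · simp only [b, if_true, ← sub_smul]; congr 1; ring
    · intro d _ hd; simp [b, hd]
    · intro h; exact absurd (Finset.mem_univ c) h
  have h3 : ‖(2 * a c) • x c‖ = 2 * A * ‖x c‖ := by
    rw [norm_smul, Real.norm_eq_abs, abs_mul, hc]; norm_num
  have h4 : ‖(2 * a c) • x c‖ ≤ ‖∑ d, a d • x d‖ + ‖∑ d, b d • x d‖ := by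
    rw [← h2]; exact norm_sub_le _ _
  have h5 : A * L ≤ A * ‖x c‖ := mul_le_mul_of_nonneg_left (hL c) hA0
  rw [h3] at h4
  nlinarith

end almost

/-- `c_0` is finitely representable in `X`: the spaces `ℓ_∞^n` embed almost isometrically. -/
def LinftyFinRep (X : Type*) [NormedAddCommGroup X] [NormedSpace ℝ X] : Prop :=
  ∀ (n : ℕ) (ε : ℝ), 0 < ε → ∃ x : Fin n → X, ∀ a : Fin n → ℝ,
    (1 - ε) * ‖a‖ ≤ ‖∑ i, a i • x i‖ ∧ ‖∑ i, a i • x i‖ ≤ (1 + ε) * ‖a‖

/-- If no `COT` inequality with constant larger than one holds, `c_0` is finitely representable. -/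
theorem linftyFinRep_of_not_cot
    (h : ∀ k : ℕ, 0 < k → ∀ ρ : ℝ, 1 < ρ → ¬ COT (Fin k) ρ X) : LinftyFinRep X := by
  intro n ε hε
  set K : ℕ := 2 * n + 1 with hK
  -- choice of the small parameter
  set M : ℝ := 4 * K * (2 ^ K * (2 * K + 2)) + 4 * K with hM
  have hMpos : 0 < M := by positivity
  obtain ⟨δ, hδ, hδM⟩ : ∃ δ : ℝ, 0 < δ ∧ M * δ ≤ ε := ⟨ε / M, by positivity, by
    rw [mul_div_cancel₀ _ hMpos.ne']⟩
  have hnc := h K (by omega) (1 + δ) (by linarith)
  unfold COT at hnc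
  push Not at hnc
  obtain ⟨y, hy⟩ := hnc
  set s : ℝ := 𝔼 c, ‖y c‖ with hs
  have hs0 : 0 ≤ s := expect_nonneg' (fun c => norm_nonneg _)
  have hspos : 0 < s := by
    rcases hs0.eq_or_lt with h0 | h0
    · rw [← h0, mul_zero] at hy
      exact absurd hy (not_lt.mpr (expect_nonneg' (fun _ => norm_nonneg _)))
    · exact h0
  let x : Fin K → X := fun c => s⁻¹ • y c
  have h1 : 𝔼 c, ‖x c‖ = 1 := by
    have : ∀ c, ‖x c‖ = s⁻¹ * ‖y c‖ := fun c => by
      rw [norm_smul, Real.norm_eq_abs, abs_of_pos (inv_pos.mpr hspos)]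
    rw [Finset.expect_congr rfl (fun c _ => this c), ← Finset.mul_expect, ← hs]
    exact inv_mul_cancel₀ hspos.ne'
  have h2 : 𝔼 θ : Fin K → Bool, RR x θ ≤ 1 + δ := by
    have : ∀ θ, RR x θ = s⁻¹ * ‖∑ c, sg (θ c) • y c‖ := by
      intro θ
      unfold RR
      have : ∑ c, sg (θ c) • x c = s⁻¹ • ∑ c, sg (θ c) • y c := by
        rw [Finset.smul_sum]
        refine Finset.sum_congr rfl (fun c _ => ?_)
        rw [smul_comm]
      rw [this, norm_smul, Real.norm_eq_abs, abs_of_pos (inv_pos.mpr hspos)]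
    rw [Finset.expect_congr rfl (fun θ _ => this θ), ← Finset.mul_expect,
      inv_mul_le_iff₀ hspos]
    linarith
  have hodd : Odd (Fintype.card (Fin K)) := by rw [Fintype.card_fin]; exact ⟨n, rfl⟩
  obtain ⟨hlow, hup⟩ := RR_near_one x hodd hδ.le h1 h2
  rw [Fintype.card_fin] at hlow hup
  -- embed `Fin n` into `Fin K`
  have hnK : n ≤ K := by omega
  let e : Fin n → Fin K := Fin.castLE hnK
  have he : Function.Injective e := Fin.castLE_injective hnK
  refine ⟨fun i => x (e i), fun a => ?_⟩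
  let b : Fin K → ℝ := fun c => if hc : c.val < n then a ⟨c.val, hc⟩ else 0
  have hbe : ∀ i, b (e i) = a i := by
    intro i; simp [b, e]
  have hsum : ∑ i, a i • x (e i) = ∑ c, b c • x c := by
    rw [← Finset.sum_subset (Finset.subset_univ (univ.map ⟨e, he⟩))]
    · rw [Finset.sum_map]
      refine Finset.sum_congr rfl (fun i _ => ?_)
      simp only [Function.Embedding.coeFn_mk]
      rw [hbe]
    · intro c _ hc
      have : ¬ c.val < n := by
        intro h; apply hc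
        rw [Finset.mem_map]
        exact ⟨⟨c.val, h⟩, Finset.mem_univ _, by ext; simp [e]⟩
      simp [b, this]
  have hb : ∀ c, |b c| ≤ ‖a‖ := by
    intro c
    by_cases hc : c.val < n
    · simp only [b, hc, dif_pos]; exact norm_le_pi_norm a _
    · simp [b, hc]
  have hηε : (K : ℝ) * (2 ^ K * ((2 * K + 2) * δ)) ≤ ε / 4 := by
    have : (K : ℝ) * (2 ^ K * ((2 * K + 2) * δ)) ≤ (M * δ) / 4 := by
      rw [hM]
      have : 0 ≤ (K : ℝ) * δ := by positivity
      nlinarith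
    linarith
  have hKε : (K : ℝ) * δ ≤ ε / 4 := by
    have : (K : ℝ) * δ ≤ (M * δ) / 4 := by
      rw [hM]
      have : 0 ≤ (K : ℝ) * (2 ^ K * (2 * K + 2)) * δ := by positivity
      nlinarith
    linarith
  have hB : ∀ θ, RR x θ ≤ 1 + ε / 4 := fun θ => (hup θ).trans (by linarith)
  have hL : ∀ c, 1 - ε / 4 ≤ ‖x c‖ := fun c => le_trans (by linarith) (hlow c)
  have ha0 : 0 ≤ ‖a‖ := norm_nonneg _
  rw [hsum]
  constructor
  · rcases Nat.eq_zero_or_pos n with hn | hn
    · have : a = 0 := by subst hn; exact Subsingleton.elim _ _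
      rw [this, norm_zero, mul_zero]; exact norm_nonneg _
    · haveI : Nonempty (Fin n) := ⟨⟨0, hn⟩⟩
      obtain ⟨i, -, hi⟩ := Finset.exists_mem_eq_sup' (Finset.univ_nonempty (α := Fin n))
        (fun i => ‖a i‖₊)
      have hi' : |a i| = ‖a‖ := by
        apply le_antisymm (norm_le_pi_norm a i)
        refine (pi_norm_le_iff_of_nonneg (norm_nonneg (a i))).mpr ?_
        intro j
        have h3 : ‖a j‖₊ ≤ ‖a i‖₊ := by
          rw [← hi]; exact Finset.le_sup' (fun i => ‖a i‖₊) (Finset.mem_univ j)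
        exact_mod_cast h3
      have := le_norm_sum x hB hL b hb (e i) (by rw [hbe, hi'])
      calc (1 - ε) * ‖a‖ ≤ ‖a‖ * (2 * (1 - ε / 4) - (1 + ε / 4)) := by nlinarith
        _ ≤ _ := this
  · calc ‖∑ c, b c • x c‖ ≤ ‖a‖ * (1 + ε / 4) := norm_sum_le x hB b hb ha0
      _ ≤ (1 + ε) * ‖a‖ := by nlinarith

/-- Dichotomy: `COT` with a constant larger than one, or `c_0` finitely representable. -/
theorem exists_cot (h : ¬ LinftyFinRep X) : ∃ k : ℕ, 0 < k ∧ ∃ ρ : ℝ, 1 < ρ ∧ COT (Fin k) ρ X := by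
  by_contra hcon
  apply h
  apply linftyFinRep_of_not_cot
  intro k hk ρ hρ hc
  exact hcon ⟨k, hk, ρ, hρ, hc⟩

/-- The same with the `COT` of `Pool.Agent.Helper40.B4`. -/
theorem exists_cot_helper40 (h : ¬ LinftyFinRep X) :
    ∃ k : ℕ, 0 < k ∧ ∃ ρ : ℝ, 1 < ρ ∧ Pool.Agent.Helper40.B4.COT X (Fin k) ρ := by
  obtain ⟨k, hk, ρ, hρ, hc⟩ := exists_cot h
  refine ⟨k, hk, ρ, hρ, fun x => ?_⟩
  have h1 := hc x
  rw [Fintype.expect_eq_sum_div_card, Fintype.expect_eq_sum_div_card] at h1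
  exact h1

end B4da01
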