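import Mathlib

open Filter Topology Set

namespace B4da01

variable {X : Type*} [NormedAddCommGroup X] [NormedSpace ℝ X]

/-- `L` is the Gateaux derivative of `φ` at `y`. -/
def HasGateaux (φ : X → ℝ) (L : X →L[ℝ] ℝ) (y : X) : Prop :=
  ∀ h : X, Tendsto (fun t : ℝ => (φ (y + t • h) - φ y) / t) (𝓝[≠] 0) (𝓝 (L h))

/-- `φ` is twice Gateaux differentiable at `x` (the definition of the problem file). -/
def TwiceGateauxAt (φ : X → ℝ) (x : X) : Prop :=
  ∃ (dφ : X → X →L[ℝ] ℝ) (B : X →L[ℝ] X →L[ℝ] ℝ),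
    (∀ᶠ y in 𝓝 x, HasGateaux φ (dφ y) y) ∧
    (∀ h k : X, Tendsto (fun t : ℝ => (1 / t) * ((dφ (x + t • k) - dφ x) h)) (𝓝[>] 0)
      (𝓝 (B h k))) ∧
    (∀ h k : X, B h k = B k h)

/-- second symmetric difference -/
def DD (φ : X → ℝ) (x h : X) : ℝ := φ (x + h) + φ (x - h) - 2 * φ x

/-- the subgradient inequality -/
lemma HasGateaux.le_sub {φ : X → ℝ} (hφ : ConvexOn ℝ univ φ) {L : X →L[ℝ] ℝ} {y : X}
    (h : HasGateaux φ L y) (v : X) : L v ≤ φ (y + v) - φ y := by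
  have h1 : Tendsto (fun t : ℝ => (φ (y + t • v) - φ y) / t) (𝓝[>] 0) (𝓝 (L v)) :=
    (h v).mono_left (nhdsWithin_mono _ (fun t ht => ne_of_gt ht))
  refine le_of_tendsto h1 ?_
  have h2 : ∀ᶠ t : ℝ in 𝓝[>] 0, t ∈ Ioc (0 : ℝ) 1 := Ioc_mem_nhdsGT one_pos
  filter_upwards [h2] with t ht
  rw [div_le_iff₀ ht.1]
  have h3 := hφ.2 (mem_univ y) (mem_univ (y + v)) (by linarith [ht.2] : (0 : ℝ) ≤ 1 - t) ht.1.le
    (by ring)
  have h4 : (1 - t) • y + t • (y + v) = y + t • v := by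
    rw [smul_add, ← add_assoc, ← add_smul]; simp
  rw [h4, smul_eq_mul, smul_eq_mul] at h3
  nlinarith

lemma dd_eventually {φ : X → ℝ} (hφ : ConvexOn ℝ univ φ) {x : X} (h : TwiceGateauxAt φ x)
    (v : X) : ∃ K : ℝ, ∃ δ > (0 : ℝ), ∀ t : ℝ, 0 < t → t ≤ δ → DD φ x (t • v) ≤ K * t ^ 2 := by
  obtain ⟨dφ, B, hd, hB, -⟩ := h
  have key : ∀ w : X, ∀ᶠ t : ℝ in 𝓝[>] 0,
      φ (x + t • w) - φ x - t * dφ x w ≤ (B w w + 1) * t ^ 2 := by
    intro w
    have h1 : ∀ᶠ t : ℝ in 𝓝[>] 0, (1 / t) * ((dφ (x + t • w) - dφ x) w) < B w w + 1 :=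
      (hB w w).eventually (gt_mem_nhds (by linarith))
    have h2 : ∀ᶠ t : ℝ in 𝓝[>] 0, HasGateaux φ (dφ (x + t • w)) (x + t • w) := by
      have hc : Tendsto (fun t : ℝ => x + t • w) (𝓝[>] 0) (𝓝 x) := by
        have : Tendsto (fun t : ℝ => x + t • w) (𝓝 0) (𝓝 (x + (0 : ℝ) • w)) :=
          Continuous.tendsto (by fun_prop) 0
        rw [zero_smul, add_zero] at this
        exact this.mono_left nhdsWithin_le_nhds
      exact hc.eventually hd
    filter_upwards [h1, h2, self_mem_nhdsWithin] with t ht1 ht2 ht3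
    have ht3' : 0 < t := ht3
    have h3 := ht2.le_sub hφ (-(t • w))
    rw [add_neg_cancel_right, map_neg, map_smul, smul_eq_mul] at h3
    rw [one_div, inv_mul_lt_iff₀ ht3', ContinuousLinearMap.sub_apply] at ht1
    nlinarith
  have h1 := key v
  have h2 := key (-v)
  have h3 := h1.and h2
  rw [eventually_nhdsWithin_iff, Metric.eventually_nhds_iff] at h3
  obtain ⟨δ, hδ, h4⟩ := h3
  refine ⟨2 * (B v v + 1), δ / 2, by positivity, fun t ht1 ht2 => ?_⟩
  have h5 := h4 (y := t) (by rw [Real.dist_eq, sub_zero, abs_of_pos ht1]; linarith) ht1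
  have h6 : B (-v) (-v) = B v v := by simp
  rw [h6, map_neg, smul_neg, ← sub_eq_add_neg] at h5
  unfold DD
  nlinarith [h5.1, h5.2]

lemma dd_neg (φ : X → ℝ) (x h : X) : DD φ x (-h) = DD φ x h := by
  unfold DD; rw [sub_neg_eq_add, ← sub_eq_add_neg]; ring

lemma dd_half {φ : X → ℝ} (hφ : ConvexOn ℝ univ φ) (x a b : X) :
    DD φ x ((1 / 2 : ℝ) • (a + b)) ≤ (1 / 2) * (DD φ x a + DD φ x b) := by
  have h1 := hφ.2 (mem_univ (x + a)) (mem_univ (x + b)) (by norm_num : (0 : ℝ) ≤ 1 / 2)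
    (by norm_num : (0 : ℝ) ≤ 1 / 2) (by norm_num)
  have h2 := hφ.2 (mem_univ (x - a)) (mem_univ (x - b)) (by norm_num : (0 : ℝ) ≤ 1 / 2)
    (by norm_num : (0 : ℝ) ≤ 1 / 2) (by norm_num)
  have h3 : (1 / 2 : ℝ) • (x + a) + (1 / 2 : ℝ) • (x + b) = x + (1 / 2 : ℝ) • (a + b) := by
    module
  have h4 : (1 / 2 : ℝ) • (x - a) + (1 / 2 : ℝ) • (x - b) = x - (1 / 2 : ℝ) • (a + b) := by
    module
  rw [h3, smul_eq_mul, smul_eq_mul] at h1
  rw [h4, smul_eq_mul, smul_eq_mul] at h2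
  unfold DD
  linarith

/-- Twice Gateaux differentiability of a convex Lipschitz function gives a pointwise quadratic
bound of the second differences. -/
theorem exists_quadratic_bound [CompleteSpace X] {φ : X → ℝ} (hφ : ConvexOn ℝ univ φ)
    {L : ℝ} (hL : ∀ x y, |φ x - φ y| ≤ L * ‖x - y‖) {x : X} (h : TwiceGateauxAt φ x) :
    ∃ C : ℝ, ∀ v : X, φ (x + v) + φ (x - v) - 2 * φ x ≤ C * ‖v‖ ^ 2 := by
  have hcont : Continuous φ := by
    have : LipschitzWith (Real.toNNReal L) φ := by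
      apply LipschitzWith.of_dist_le_mul
      intro a b
      rw [Real.dist_eq, dist_eq_norm]
      refine (hL a b).trans ?_
      gcongr
      exact Real.le_coe_toNNReal L
    exact this.continuous
  let A : ℕ → Set X := fun n => {v | ∀ t : ℝ, 0 < t → t ≤ 1 / (n + 1) → DD φ x (t • v) ≤
    (n + 1) * t ^ 2}
  have hclosed : ∀ n, IsClosed (A n) := by
    intro n
    have : A n = ⋂ t : ℝ, ⋂ _ : 0 < t, ⋂ _ : t ≤ 1 / ((n : ℝ) + 1),
        {v | DD φ x (t • v) ≤ (n + 1) * t ^ 2} := by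
      ext v; simp [A]
    rw [this]
    refine isClosed_iInter fun t => isClosed_iInter fun _ => isClosed_iInter fun _ => ?_
    apply isClosed_le _ continuous_const
    unfold DD
    fun_prop
  have hunion : ⋃ n, A n = univ := by
    rw [eq_univ_iff_forall]
    intro v
    obtain ⟨K, δ, hδ, hK⟩ := dd_eventually hφ h v
    obtain ⟨n, hn⟩ := exists_nat_gt (max K (1 / δ))
    rw [mem_iUnion]
    refine ⟨n, fun t ht1 ht2 => ?_⟩
    have hn1 : K < n := lt_of_le_of_lt (le_max_left _ _) hn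
    have hn2 : 1 / δ < n := lt_of_le_of_lt (le_max_right _ _) hn
    have hnpos : (0 : ℝ) < n := lt_trans (by positivity) hn2
    have h5 : t ≤ δ := by
      refine ht2.trans ?_
      rw [div_lt_iff₀ hδ] at hn2
      rw [div_le_iff₀ (by positivity)]
      nlinarith
    refine (hK t ht1 h5).trans ?_
    have : 0 ≤ t ^ 2 := sq_nonneg t
    nlinarith
  obtain ⟨n, hn⟩ := nonempty_interior_of_iUnion_of_closed hclosed hunion
  obtain ⟨h0, hh0⟩ := hn
  rw [mem_interior_iff_mem_nhds, Metric.mem_nhds_iff] at hh0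
  obtain ⟨r, hr, hball⟩ := hh0
  have hn0 : (0 : ℝ) < n + 1 := by positivity
  -- the ball around zero
  have hzero : ∀ v : X, ‖v‖ < r → ∀ t : ℝ, 0 < t → t ≤ 1 / (n + 1) →
      DD φ x (t • v) ≤ (n + 1) * t ^ 2 := by
    intro v hv t ht1 ht2
    have ha : h0 + v ∈ A n := hball (by rw [Metric.mem_ball, dist_eq_norm]; simpa using hv)
    have hb : h0 - v ∈ A n := hball (by
      rw [Metric.mem_ball, dist_eq_norm]
      have : h0 - v - h0 = -v := by abel
      rw [this, norm_neg]; exact hv)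
    have ha' := ha t ht1 ht2
    have hb' := hb t ht1 ht2
    have h6 := dd_half hφ x (t • (h0 + v)) (-(t • (h0 - v)))
    rw [dd_neg] at h6
    have h7 : (1 / 2 : ℝ) • (t • (h0 + v) + -(t • (h0 - v))) = t • v := by
      module
    rw [h7] at h6
    linarith
  have hL0 : ∀ v : X, DD φ x v ≤ 2 * L * ‖v‖ := by
    intro v
    have h1 := (abs_le.mp (hL (x + v) x)).2
    have h2 := (abs_le.mp (hL (x - v) x)).2
    have h3 : x + v - x = v := by abel
    have h4 : x - v - x = -v := by abel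
    rw [h3] at h1
    rw [h4, norm_neg] at h2
    unfold DD
    linarith
  set s0 : ℝ := r / (2 * (n + 1)) with hs0
  have hs0pos : 0 < s0 := by positivity
  refine ⟨max ((n + 1) * (4 / r ^ 2)) (2 * |L| / s0), fun v => ?_⟩
  change DD φ x v ≤ _
  have hv0 : 0 ≤ ‖v‖ := norm_nonneg v
  rcases eq_or_lt_of_le hv0 with h8 | h8
  · have : v = 0 := norm_eq_zero.mp h8.symm
    subst this
    simp [DD]; ring_nf; exact le_refl _
  rcases le_or_gt ‖v‖ s0 with h9 | h9
  · have h10 := hzero ((r / (2 * ‖v‖)) • v) (by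
      rw [norm_smul, Real.norm_eq_abs, abs_of_pos (by positivity)]
      have : r / (2 * ‖v‖) * ‖v‖ = r / 2 := by field_simp
      rw [this]; linarith) (2 * ‖v‖ / r) (by positivity) (by
      rw [hs0, le_div_iff₀ (by positivity)] at h9
      rw [div_le_div_iff₀ hr hn0]
      nlinarith)
    have h11 : (2 * ‖v‖ / r) • (r / (2 * ‖v‖)) • v = v := by
      rw [smul_smul]
      have : 2 * ‖v‖ / r * (r / (2 * ‖v‖)) = 1 := by field_simp
      rw [this, one_smul]
    rw [h11] at h10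
    refine h10.trans ?_
    calc (n + 1) * (2 * ‖v‖ / r) ^ 2 = ((n + 1) * (4 / r ^ 2)) * ‖v‖ ^ 2 := by
          field_simp; ring
      _ ≤ _ := by gcongr; exact le_max_left _ _
  · refine (hL0 v).trans ?_
    calc 2 * L * ‖v‖ ≤ 2 * |L| * ‖v‖ := by gcongr; exact le_abs_self L
      _ ≤ (2 * |L| / s0) * ‖v‖ ^ 2 := by
          have h12 : 2 * |L| / s0 * ‖v‖ ^ 2 = 2 * |L| * ‖v‖ * (‖v‖ / s0) := by
            field_simp
          rw [h12]
          have h13 : 1 ≤ ‖v‖ / s0 := by rw [le_div_iff₀ hs0pos]; linarith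
          have h14 : 0 ≤ 2 * |L| * ‖v‖ := by positivity
          nlinarith
      _ ≤ _ := by gcongr; exact le_max_right _ _

end B4da01
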