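import Pool.Agent.Helper34.TG.Result

/-!
MP_b4da01_an.  Partial answer to Q1: a Banach space with a twice Gateaux differentiable norm which
does not contain the spaces `ℓ_∞^n` uniformly is superreflexive.
-/

set_option autoImplicit false

open Pool.Agent.Helper34.TG

universe u v

/-- Let `X` be a real Banach space which admits a twice Gateaux differentiable norm and which does
not contain the spaces `ℓ_∞^n` uniformly.  Then `X` is superreflexive. -/
theorem Pool.Agent.Results.MP_b4da01_an.FiniteCotype.result
    (X : Type u) [NormedAddCommGroup X] [NormedSpace ℝ X] [CompleteSpace X]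
    (hsmooth : AdmitsTwiceGateauxNorm X) (hcotype : ¬ ContainsLinftyUniformly X) :
    IsSuperreflexive.{u, v} X :=
  isSuperreflexive_of_twiceGateaux hsmooth hcotype
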